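import Pool.Agent.helper18.HG.Spec

/-!
# Row `hg:NPE` (MP_33a656_nt): the digits are not eventually periodic
-/

set_option autoImplicit false

namespace Pool.Agent.helper18.HG

open Finset

theorem NPE_bdd (c : ℕ → ℤ) (N p : ℕ) (t : ℤ) (hp : 1 ≤ p)
    (h : ∀ L, N ≤ L → c (L + p) = c L + t) :
    ∃ M : ℕ, ∀ L : ℕ, |(p : ℤ) * c L - t * L| ≤ M := by
  refine ⟨∑ i ∈ range (N + p), ((p : ℤ) * c i - t * i).natAbs, fun L => ?_⟩
  induction L using Nat.strong_induction_on with
  | _ L ih =>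
    rcases lt_or_ge L (N + p) with hL | hL
    · have h1 : ((p : ℤ) * c L - t * L).natAbs ≤
          ∑ i ∈ range (N + p), ((p : ℤ) * c i - t * i).natAbs :=
        Finset.single_le_sum (f := fun i : ℕ => ((p : ℤ) * c i - t * i).natAbs)
          (fun i _ => Nat.zero_le _) (Finset.mem_range.2 hL)
      rw [Int.abs_eq_natAbs]
      exact_mod_cast h1
    · obtain ⟨m, rfl⟩ : ∃ m, L = m + p := ⟨L - p, by omega⟩
      have hm : N ≤ m := by omega
      have h2 := ih m (by omega)
      have h3 : (p : ℤ) * c (m + p) - t * ((m + p : ℕ) : ℤ) = (p : ℤ) * c m - t * m := by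
        rw [h m hm]
        push_cast
        ring
      rw [h3]
      exact h2

theorem NPE_rec (c : ℕ → ℤ) (N p : ℕ)
    (h : ∀ n, N ≤ n → c (n + p + 1) - c (n + p) = c (n + 1) - c n) :
    ∀ L, N ≤ L → c (L + p) = c L + (c (N + p) - c N) := by
  intro L hL
  induction L, hL using Nat.le_induction with
  | base => ring
  | succ m hm ih =>
    have h1 := h m hm
    have h2 : m + 1 + p = m + p + 1 := by omega
    rw [h2]
    linarith

theorem NPE_mono (k : ℕ) (h : ∀ L, rk k L ≤ rk k (L + 1) ∧ rk k (L + 1) ≤ rk k L + 1) (N p : ℕ) :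
    rk k N ≤ rk k (N + p) :=
  monotone_nat_of_le_succ (f := fun L => rk k L) (fun L => (h L).1) (Nat.le_add_right N p)

theorem NPE (hRKB : RKB_stmt) (hWIN : WIN_stmt) (hUNB : UNB_stmt) (hVDW : VDW_stmt) : NPE_stmt := by
  intro k hk hev
  obtain ⟨N, p, hp, hper⟩ := hev
  obtain ⟨hopt, hub, hstep, -, -⟩ := hRKB k (by omega)
  obtain ⟨t, ht⟩ : ∃ t : ℕ, rk k (N + p) = rk k N + t :=
    ⟨rk k (N + p) - rk k N, by have := NPE_mono k hstep N p; omega⟩
  have h1 : ∀ L, N ≤ L → ((rk k (L + p) : ℕ) : ℤ) = ((rk k L : ℕ) : ℤ) + (t : ℤ) := by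
    intro L hL
    have h2 := NPE_rec (fun L => ((rk k L : ℕ) : ℤ)) N p (fun n hn => hper n hn) L hL
    rw [h2, ht]
    push_cast
    ring
  obtain ⟨M, hM⟩ := NPE_bdd (fun L => ((rk k L : ℕ) : ℤ)) N p t hp h1
  have ht1 : 1 ≤ t := by
    by_contra hcon
    have ht0 : t = 0 := by omega
    subst ht0
    have h2 := hM (2 ^ (M + 1))
    have h3 := hUNB k (M + 1) hk
    have h4 : ((M : ℤ) + 1) ≤ (rk k (2 ^ (M + 1)) : ℤ) := by exact_mod_cast h3
    have h5 := (abs_le.1 h2).2
    have h6 : (1 : ℤ) ≤ p := by exact_mod_cast hp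
    have h7 : (rk k (2 ^ (M + 1)) : ℤ) ≤ (p : ℤ) * (rk k (2 ^ (M + 1)) : ℤ) := by nlinarith
    simp only [Nat.cast_zero, zero_mul, sub_zero] at h5
    linarith
  set b : ℕ := 3 * M + 1 with hb
  obtain ⟨N', hN'⟩ := hVDW k b
  obtain ⟨A, hAL, hAf, hAc⟩ := hopt (N' + b)
  have hwin : ∀ a, a + b ≤ N' + b → ∃ j < b, a + j ∈ A := by
    intro a ha
    by_contra hcon
    push Not at hcon
    have h2 := hWIN k A 0 a (by omega) hAf
    have h3 := hWIN k A (a + b) (N' + b - (a + b)) (by omega) hAf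
    have h4 : A ⊆ (A.filter (fun x => 0 ≤ x ∧ x < 0 + a)) ∪
        (A.filter (fun x => a + b ≤ x ∧ x < a + b + (N' + b - (a + b)))) := by
      intro x hx
      have hxL := Finset.mem_range.1 (hAL hx)
      rw [Finset.mem_union, Finset.mem_filter, Finset.mem_filter]
      rcases lt_or_ge x a with hxa | hxa
      · exact Or.inl ⟨hx, by omega, by omega⟩
      · rcases lt_or_ge x (a + b) with hxb | hxb
        · exfalso
          refine hcon (x - a) (by omega) ?_
          have : a + (x - a) = x := by omega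
          rw [this]
          exact hx
        · exact Or.inr ⟨hx, hxb, by omega⟩
    have h5 := (Finset.card_le_card h4).trans (Finset.card_union_le _ _)
    rw [hAc] at h5
    have h6 : rk k (N' + b) ≤ rk k a + rk k (N' + b - (a + b)) := by omega
    have e1 := (abs_le.1 (hM (N' + b))).1
    have e2 := (abs_le.1 (hM a)).2
    have e3 := (abs_le.1 (hM (N' + b - (a + b)))).2
    have e4 : ((N' + b - (a + b) : ℕ) : ℤ) = ((N' + b : ℕ) : ℤ) - ((a : ℤ) + b) := by
      rw [Nat.cast_sub ha]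
      push_cast
      ring
    rw [e4] at e3
    have e5 : (p : ℤ) * (rk k (N' + b) : ℤ) ≤
        (p : ℤ) * (rk k a : ℤ) + (p : ℤ) * (rk k (N' + b - (a + b)) : ℤ) := by
      have : (rk k (N' + b) : ℤ) ≤ (rk k a : ℤ) + (rk k (N' + b - (a + b)) : ℤ) := by
        exact_mod_cast h6
      have hp0 : (0 : ℤ) ≤ p := by positivity
      nlinarith
    have e6 : (t : ℤ) * b ≤ 3 * M := by nlinarith
    have e7 : (1 : ℤ) ≤ t := by exact_mod_cast ht1
    have e8 : ((b : ℕ) : ℤ) = 3 * M + 1 := by rw [hb]; push_cast; ring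
    have e9 : (0 : ℤ) ≤ M := by positivity
    rw [e8] at e6
    nlinarith
  have hch : ∀ x, ∃ j, j < b ∧ (x + b ≤ N' + b → x + j ∈ A) := by
    intro x
    by_cases hx : x + b ≤ N' + b
    · obtain ⟨j, hj, hjA⟩ := hwin x hx
      exact ⟨j, hj, fun _ => hjA⟩
    · exact ⟨0, by omega, fun h => absurd h hx⟩
  choose g hg hgA using hch
  obtain ⟨a, q, hq, hmono⟩ := hN' (fun x => ⟨g x, hg x⟩)
  obtain ⟨j, hj, hjA⟩ := hAf (a + g a) q hq
  apply hjA
  obtain ⟨h8, h9⟩ := hmono j hj
  have h10 : g (a + j * q) = g a := by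
    have := congrArg Fin.val h9
    exact this
  have h11 := hgA (a + j * q) (by omega)
  rw [h10] at h11
  have h12 : a + g a + j * q = a + j * q + g a := by ring
  rw [h12]
  exact h11

end Pool.Agent.helper18.HG
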